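import Pool.Agent.J6H9.PL.Stm

/-!
# Continuous selections of finitely many linear maps are Lipschitz
-/

set_option autoImplicit false

open Filter Topology Set
open Pool.Agent.J6H45.CoordRestr

namespace Pool.Agent.J6H76.PL

theorem lip_aux {V W : Type*} [NormedAddCommGroup V] [NormedSpace ℝ V] [NormedAddCommGroup W]
    [NormedSpace ℝ W] (A : V → W) (hA : Continuous A) (S : Set (V →L[ℝ] W)) (hS : S.Finite)
    (hsel : ∀ x, ∃ L ∈ S, A x = L x) (K : ℝ) (hK : ∀ L ∈ S, ‖L‖ ≤ K) (x y : V) :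
    ‖A y - A x‖ ≤ K * ‖y - x‖ := by
  set γ : ℝ → V := fun t => x + t • (y - x) with hγ
  have hγc : Continuous γ := by fun_prop
  set F : ℝ → W := fun t => A (γ t) with hF
  have hFc : Continuous F := hA.comp hγc
  have main : ∀ ⦃t : ℝ⦄, t ∈ Icc (0 : ℝ) 1 → ‖F t - F 0‖ ≤ K * ‖y - x‖ * t := by
    refine image_le_of_liminf_slope_right_le_deriv_boundary (f := fun t => ‖F t - F 0‖)
      (B := fun t => K * ‖y - x‖ * t) (B' := fun _ => K * ‖y - x‖) ?_ ?_ ?_ ?_ ?_
    · exact ((hFc.sub continuous_const).norm).continuousOn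
    · simp
    · exact (continuous_const.mul continuous_id).continuousOn
    · intro t _
      simpa using ((hasDerivAt_id t).const_mul (K * ‖y - x‖)).hasDerivWithinAt
    · intro t _ r hr
      -- pigeonhole
      obtain ⟨L, hL, hfr⟩ : ∃ L ∈ S, ∃ᶠ z in 𝓝[>] t, A (γ z) = L (γ z) := by
        by_contra hcon
        push Not at hcon
        have h1 : ∀ L ∈ S, ∀ᶠ z in 𝓝[>] t, ¬ A (γ z) = L (γ z) := fun L hL => hcon L hL
        have h2 : ∀ᶠ z in 𝓝[>] t, ∀ L ∈ S, ¬ A (γ z) = L (γ z) :=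
          (Filter.eventually_all_finite hS).2 h1
        obtain ⟨z, hz⟩ := h2.exists
        obtain ⟨L, hL, h3⟩ := hsel (γ z)
        exact hz L hL h3
      have ht : A (γ t) = L (γ t) := by
        have hcl : IsClosed {z : ℝ | A (γ z) = L (γ z)} :=
          isClosed_eq (hA.comp hγc) (L.continuous.comp hγc)
        exact hcl.mem_of_frequently_of_tendsto hfr
          (tendsto_nhds_of_tendsto_nhdsWithin tendsto_id)
      refine (hfr.and_eventually self_mem_nhdsWithin).mono ?_
      rintro z ⟨hz, hzt⟩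
      have hzt' : 0 < z - t := sub_pos.2 hzt
      refine lt_of_le_of_lt ?_ hr
      rw [slope_def_field, div_le_iff₀ hzt']
      have h4 : F z - F t = (z - t) • L (y - x) := by
        have h5 : F z - F t = L (γ z) - L (γ t) := by rw [← hz, ← ht]
        rw [h5, ← map_sub, ← map_smul]
        congr 1
        simp only [hγ]
        rw [sub_smul]
        abel
      calc ‖F z - F 0‖ - ‖F t - F 0‖ ≤ ‖(F z - F 0) - (F t - F 0)‖ := norm_sub_norm_le _ _
        _ = ‖F z - F t‖ := by congr 1; abel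
        _ = (z - t) * ‖L (y - x)‖ := by
          rw [h4, norm_smul, Real.norm_of_nonneg hzt'.le]
        _ ≤ (z - t) * (K * ‖y - x‖) := by
          refine mul_le_mul_of_nonneg_left ?_ hzt'.le
          exact (L.le_opNorm _).trans (mul_le_mul_of_nonneg_right (hK L hL) (norm_nonneg _))
        _ = K * ‖y - x‖ * (z - t) := by ring
  have h := main (right_mem_Icc.2 zero_le_one)
  simpa [hF, hγ] using h

theorem main : Pool.Agent.J6H9.PL.S_Lip := by
  intro n A hA hsel
  obtain ⟨S, hS, hsel⟩ := hsel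
  obtain ⟨K, hK⟩ : ∃ K : ℝ, ∀ L ∈ S, ‖L‖ ≤ K := by
    obtain ⟨K, hK⟩ := (hS.image fun L => ‖L‖).bddAbove
    exact ⟨K, fun L hL => hK ⟨L, hL, rfl⟩⟩
  refine ⟨⟨max K 0, le_max_right _ _⟩, LipschitzWith.of_dist_le_mul fun x y => ?_⟩
  rw [dist_eq_norm, dist_eq_norm]
  exact lip_aux A hA S hS hsel (max K 0) (fun L hL => (hK L hL).trans (le_max_left _ _)) y x

end Pool.Agent.J6H76.PL
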